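import Pool.Agent.Q263.HR.Geo

/-! Job HR-FL: uniform estimates for a smooth flow on a closed manifold embedded in a normed
space. -/

set_option autoImplicit false

open scoped Manifold ContDiff Topology
open Set Filter Pool.Agent.H721R2

namespace Q263.HR

universe u v w

section fl

variable {E : Type u} [NormedAddCommGroup E] [NormedSpace ℝ E] [FiniteDimensional ℝ E]
  {M : Type v} [MetricSpace M] [ChartedSpace E M] [IsManifold 𝓘(ℝ, E) ∞ M]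
  {F : Type w} [NormedAddCommGroup F] [NormedSpace ℝ F] {e : M → F}

/-- local to global on a compact metric space, with a small time -/
theorem fl_glob {M : Type v} [MetricSpace M] [CompactSpace M] (Q : ℝ → M → M → Prop)
    (h : ∀ x₀ : M, ∃ W ∈ 𝓝 x₀, ∃ r > 0, ∀ τ : ℝ, |τ| < r → ∀ y ∈ W, ∀ y' ∈ W, Q τ y y') :
    ∃ r > 0, ∀ (τ : ℝ) (y y' : M), |τ| < r → dist y y' < r → Q τ y y' := by
  obtain ⟨r, hr, hP⟩ := exists_uniform_small
    (fun r (x : M) => ∀ (τ : ℝ) (y' : M), |τ| < r → dist x y' < r → Q τ x y')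
    (fun C C' x hC hx τ y' h1 h2 => hx τ y' (h1.trans_le hC) (h2.trans_le hC)) (by
      intro x₀
      obtain ⟨W, hW, r, hr, hQ⟩ := h x₀
      obtain ⟨ρ, hρ, hb⟩ := Metric.mem_nhds_iff.mp hW
      refine ⟨min r (ρ / 2), lt_min hr (half_pos hρ), ?_⟩
      filter_upwards [Metric.ball_mem_nhds x₀ (half_pos hρ)] with x hx τ y' h1 h2
      have h3 : dist x x₀ < ρ / 2 := hx
      have h4 := h2.trans_le (min_le_right _ _)
      refine hQ τ (h1.trans_le (min_le_left _ _)) x (hb ?_) y' (hb ?_)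
      · rw [Metric.mem_ball]; linarith
      · rw [Metric.mem_ball]
        have h5 := dist_triangle y' x x₀
        rw [dist_comm y' x] at h5
        linarith)
  exact ⟨r, hr, fun τ y y' h1 h2 => hP y τ y' h1 h2⟩

/-- the chart is Lipschitz near its base point -/
theorem fl_low (hE : Emb E e) (x₀ : M) : ∃ C > 0, ∃ W ∈ 𝓝 x₀,
    ∀ x ∈ W, ∀ y ∈ W, ‖extChartAt 𝓘(ℝ, E) x₀ y - extChartAt 𝓘(ℝ, E) x₀ x‖ ≤ C * dist x y := by
  have hM1 : IsManifold 𝓘(ℝ, E) 1 M := IsManifold.of_le (n := ∞) (by simp)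
  have he : ContMDiff 𝓘(ℝ, E) 𝓘(ℝ, F) 1 e := hE.smooth.of_le (by simp)
  set φ := extChartAt 𝓘(ℝ, E) x₀ with hφ
  set p₀ := φ x₀ with hp₀
  set L := fderiv ℝ (hatMap e x₀) p₀ with hL
  have hx₀ : x₀ ∈ φ.source := mem_extChartAt_source x₀
  have hLinj : Function.Injective L := by
    obtain ⟨A, hA⟩ := isInvertible_mfderiv_extChartAt (I := 𝓘(ℝ, E)) hx₀
    intro a b hab
    have h1 : ∀ w : E, dm E e x₀ (A.symm w) = L w := by
      intro w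
      have h2 := hatMap_mfderiv e he x₀ x₀ hx₀ (A.symm w)
      rw [h2, ← hφ]
      have h3 : dm E φ x₀ (A.symm w) = w := by
        show mfderiv 𝓘(ℝ, E) 𝓘(ℝ, E) φ x₀ (A.symm w) = w
        rw [← hA]; exact A.apply_symm_apply w
      rw [h3]
    have h4 : A.symm a = A.symm b := by
      apply hE.inj x₀
      exact (h1 a).trans (hab.trans (h1 b).symm)
    exact A.symm.injective h4
  obtain ⟨K, hK0, hK⟩ := (LinearMap.injective_iff_antilipschitz (L : E →ₗ[ℝ] F)).mp hLinj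
  set κ : ℝ := (K : ℝ) with hκ
  have hκ0 : 0 < κ := hK0
  have hLlow : ∀ w : E, ‖w‖ ≤ κ * ‖L w‖ := fun w =>
    ZeroHomClass.bound_of_antilipschitz (L : E →ₗ[ℝ] F) hK w
  have hc := hatMap_contDiffAt e he x₀ p₀ (mem_extChartAt_target x₀)
  have hs : HasStrictFDerivAt (hatMap e x₀) L p₀ := hc.hasStrictFDerivAt (by norm_num)
  rw [hasStrictFDerivAt_iff_isLittleO] at hs
  have h1 := hs.def (show (0:ℝ) < 1 / (2 * κ) by positivity)
  rw [nhds_prod_eq, Filter.Eventually, Filter.mem_prod_self_iff] at h1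
  obtain ⟨t, ht, h1⟩ := h1
  have h2 : ContinuousAt φ x₀ := continuousAt_extChartAt x₀
  refine ⟨2 * κ, by positivity, φ.source ∩ φ ⁻¹' t,
    inter_mem ((isOpen_extChartAt_source (I := 𝓘(ℝ, E)) x₀).mem_nhds hx₀)
      (h2.preimage_mem_nhds ht), ?_⟩
  rintro x ⟨hxs, hxt⟩ y ⟨hys, hyt⟩
  have h4 := h1 (Set.mk_mem_prod hyt hxt)
  simp only [mem_ofPred_eq] at h4
  have ex : hatMap e x₀ (φ x) = e x := by
    show e (φ.symm (φ x)) = e x; rw [φ.left_inv hxs]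
  have ey : hatMap e x₀ (φ y) = e y := by
    show e (φ.symm (φ y)) = e y; rw [φ.left_inv hys]
  rw [ex, ey] at h4
  rw [hE.iso x y, norm_sub_rev (e x) (e y)]
  have h5 := hLlow (φ y - φ x)
  have h6 : ‖L (φ y - φ x)‖ ≤ ‖e y - e x‖ + 1 / (2 * κ) * ‖φ y - φ x‖ := by
    have h7 := norm_sub_le (e y - e x) (e y - e x - L (φ y - φ x))
    rw [sub_sub_cancel] at h7
    linarith
  have h8 : κ * ‖L (φ y - φ x)‖ ≤ κ * (‖e y - e x‖ + 1 / (2 * κ) * ‖φ y - φ x‖) :=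
    mul_le_mul_of_nonneg_left h6 hκ0.le
  have h9 : κ * (‖e y - e x‖ + 1 / (2 * κ) * ‖φ y - φ x‖) =
      κ * ‖e y - e x‖ + ‖φ y - φ x‖ / 2 := by
    field_simp
  linarith

/-- the flow in a chart at the start, in the ambient space at the end -/
noncomputable def PsiE (e : M → F) (Φ : ℝ → M → M) (x₀ : M) (z : ℝ × E) : F :=
  e (Φ z.1 ((extChartAt 𝓘(ℝ, E) x₀).symm z.2))

theorem PsiE_contDiff (hE : Emb E e) {R : M → E} {Φ : ℝ → M → M} (d : Q71.WN.FD R Φ) (x₀ : M) :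
    ContDiffAt ℝ ∞ (PsiE e Φ x₀) (0, extChartAt 𝓘(ℝ, E) x₀ x₀) := by
  have hq := mem_extChartAt_source (I := 𝓘(ℝ, E)) x₀
  rw [← contMDiffAt_iff_contDiffAt]
  have h1 : ContMDiffAt 𝓘(ℝ, ℝ × E) 𝓘(ℝ, E) ∞
      (fun z : ℝ × E => (extChartAt 𝓘(ℝ, E) x₀).symm z.2) (0, extChartAt 𝓘(ℝ, E) x₀ x₀) := by
    refine ContMDiffAt.comp (0, extChartAt 𝓘(ℝ, E) x₀ x₀) (Q71.WN.md_symm hq) ?_
    exact (contMDiffAt_iff_contDiffAt.2 contDiffAt_snd)
  have h2 : ContMDiffAt 𝓘(ℝ, ℝ × E) 𝓘(ℝ, ℝ) ∞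
      (fun z : ℝ × E => z.1) (0, extChartAt 𝓘(ℝ, E) x₀ x₀) :=
    (contMDiffAt_iff_contDiffAt.2 contDiffAt_fst)
  have h3 : ContMDiffAt 𝓘(ℝ, ℝ × E) 𝓘(ℝ, E) ∞
      (fun z : ℝ × E => Φ z.1 ((extChartAt 𝓘(ℝ, E) x₀).symm z.2))
      (0, extChartAt 𝓘(ℝ, E) x₀ x₀) :=
    (d.flow _).comp (0, extChartAt 𝓘(ℝ, E) x₀ x₀) (h2.prodMk h1)
  exact ContMDiffAt.comp (0, extChartAt 𝓘(ℝ, E) x₀ x₀) (hE.smooth _) h3

theorem fl_deriv (hE : Emb E e) {R : M → E} {Φ : ℝ → M → M} (d : Q71.WN.FD R Φ) (x : M) :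
    HasDerivAt (fun t => e (Φ t x)) (dm E e x (R x)) 0 := by
  have h1 := d.int x 0
  have h2 := HasMFDerivAt.comp (0:ℝ) (g := e) (f := fun s => Φ s x)
    ((hE.smooth.mdifferentiableAt (x := Φ 0 x) (by simp)).hasMFDerivAt) h1
  have h2' : HasFDerivAt (fun t => e (Φ t x))
      ((dm E e (Φ 0 x)).comp ((1 : ℝ →L[ℝ] ℝ).smulRight (R (Φ 0 x)))) 0 :=
    hasMFDerivAt_iff_hasFDerivAt.1 h2
  have h3 := h2'.hasDerivAt
  refine h3.congr_deriv ?_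
  have e1 : ∀ z : M, z = x → (dm E e z ((1:ℝ) • R z) : F) = dm E e x (R x) := by
    rintro _ rfl
    rw [one_smul]
  exact e1 _ (d.zero x)

/-- strict differentiability of `PsiE`, in terms of points of the manifold -/
theorem fl_strict (hE : Emb E e) {R : M → E} {Φ : ℝ → M → M} (d : Q71.WN.FD R Φ) (x₀ : M) :
    ∃ A : ℝ × E →L[ℝ] F, ∀ η > 0, ∃ W ∈ 𝓝 x₀, ∃ r > 0, ∀ t t' : ℝ, |t| < r → |t'| < r →
      ∀ y ∈ W, ∀ y' ∈ W, ‖e (Φ t' y') - e (Φ t y) -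
        A (t' - t, extChartAt 𝓘(ℝ, E) x₀ y' - extChartAt 𝓘(ℝ, E) x₀ y)‖ ≤
        η * ‖((t' - t, extChartAt 𝓘(ℝ, E) x₀ y' - extChartAt 𝓘(ℝ, E) x₀ y) : ℝ × E)‖ := by
  set φ := extChartAt 𝓘(ℝ, E) x₀ with hφ
  have hx₀ : x₀ ∈ φ.source := mem_extChartAt_source x₀
  have hs := (PsiE_contDiff hE d x₀).hasStrictFDerivAt (by simp)
  refine ⟨fderiv ℝ (PsiE e Φ x₀) (0, φ x₀), fun η hη => ?_⟩
  rw [hasStrictFDerivAt_iff_isLittleO] at hs
  have h1 := hs.def hη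
  rw [nhds_prod_eq, Filter.Eventually, Filter.mem_prod_self_iff] at h1
  obtain ⟨T, hT, h1⟩ := h1
  rw [← hφ, Metric.mem_nhds_iff] at hT
  obtain ⟨r, hr, hT⟩ := hT
  have h2 : ContinuousAt φ x₀ := continuousAt_extChartAt x₀
  refine ⟨φ.source ∩ φ ⁻¹' Metric.ball (φ x₀) r,
    inter_mem ((isOpen_extChartAt_source (I := 𝓘(ℝ, E)) x₀).mem_nhds hx₀)
      (h2.preimage_mem_nhds (Metric.ball_mem_nhds _ hr)), r, hr, ?_⟩
  rintro t t' ht ht' y ⟨hys, hyb⟩ y' ⟨hys', hyb'⟩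
  have hmem : ∀ (s : ℝ) (z : E), |s| < r → z ∈ Metric.ball (φ x₀) r → ((s, z) : ℝ × E) ∈ T := by
    intro s z hs hz
    apply hT
    rw [Metric.mem_ball, Prod.dist_eq, max_lt_iff]
    exact ⟨by simpa [Real.dist_eq] using hs, hz⟩
  have h4 := h1 (Set.mk_mem_prod (hmem t' (φ y') ht' hyb') (hmem t (φ y) ht hyb))
  simp only [mem_ofPred_eq] at h4
  have ey : PsiE e Φ x₀ (t, φ y) = e (Φ t y) := by
    show e (Φ t (φ.symm (φ y))) = _; rw [φ.left_inv hys]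
  have ey' : PsiE e Φ x₀ (t', φ y') = e (Φ t' y') := by
    show e (Φ t' (φ.symm (φ y'))) = _; rw [φ.left_inv hys']
  rw [ey, ey', Prod.mk_sub_mk] at h4
  exact h4

theorem fl_F1 (hE : Emb E e) {R : M → E} {Φ : ℝ → M → M} (d : Q71.WN.FD R Φ) (η : ℝ) (hη : 0 < η)
    (x₀ : M) : ∃ W ∈ 𝓝 x₀, ∃ r > 0, ∀ τ : ℝ, |τ| < r → ∀ y ∈ W, ∀ y' ∈ W,
      ‖(e (Φ τ y') - e (Φ τ y)) - (e y' - e y)‖ ≤ η * dist y y' := by
  obtain ⟨C, hC, W1, hW1, hlow⟩ := fl_low hE x₀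
  obtain ⟨A, hA⟩ := fl_strict hE d x₀
  obtain ⟨W, hW, r, hr, h1⟩ := hA (η / (2 * C)) (by positivity)
  refine ⟨W1 ∩ W, inter_mem hW1 hW, r, hr, ?_⟩
  rintro τ hτ y ⟨hy1, hy⟩ y' ⟨hy1', hy'⟩
  have h2 := h1 τ τ hτ hτ y hy y' hy'
  have h3 := h1 0 0 (by simpa using hr) (by simpa using hr) y hy y' hy'
  rw [sub_self] at h2 h3
  rw [d.zero, d.zero] at h3
  have h4 := hlow y hy1 y' hy1'
  set q := extChartAt 𝓘(ℝ, E) x₀ y' - extChartAt 𝓘(ℝ, E) x₀ y with hq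
  have h5 : ‖((0, q) : ℝ × E)‖ = ‖q‖ := by
    rw [Prod.norm_def]; simp
  rw [h5] at h2 h3
  have e1 : (e (Φ τ y') - e (Φ τ y)) - (e y' - e y) =
      (e (Φ τ y') - e (Φ τ y) - A (0, q)) - (e y' - e y - A (0, q)) := by abel
  rw [e1]
  have h6 := norm_sub_le (e (Φ τ y') - e (Φ τ y) - A (0, q)) (e y' - e y - A (0, q))
  have h7 : η / (2 * C) * ‖q‖ ≤ η / (2 * C) * (C * dist y y') :=
    mul_le_mul_of_nonneg_left h4 (by positivity)
  have h8 : η / (2 * C) * (C * dist y y') = η / 2 * dist y y' := by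
    field_simp
  linarith

theorem fl_vec (hE : Emb E e) {R : M → E} {Φ : ℝ → M → M} (d : Q71.WN.FD R Φ)
    (x₀ : M) : ∃ a : F, ∀ η > 0, ∃ W ∈ 𝓝 x₀, ∃ r > 0, (∀ y ∈ W, ‖dm E e y (R y) - a‖ ≤ η) ∧
      ∀ t : ℝ, |t| < r → ∀ y ∈ W, ‖e (Φ t y) - e y - t • a‖ ≤ η * |t| := by
  obtain ⟨A, hA⟩ := fl_strict hE d x₀
  refine ⟨A (1, 0), fun η hη => ?_⟩
  obtain ⟨W, hW, r, hr, h1⟩ := hA η hη
  have key : ∀ t : ℝ, |t| < r → ∀ y ∈ W, ‖e (Φ t y) - e y - t • A (1, 0)‖ ≤ η * |t| := by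
    intro t ht y hy
    have h2 := h1 0 t (by simpa using hr) ht y hy y hy
    rw [sub_self, sub_zero, d.zero] at h2
    have h3 : A (t, 0) = t • A (1, 0) := by
      rw [← map_smul]; simp
    have h5 : ‖((t, 0) : ℝ × E)‖ = |t| := by
      rw [Prod.norm_def]; simp
    rw [h3, h5] at h2
    exact h2
  refine ⟨W, hW, r, hr, fun y hy => ?_, key⟩
  have h2 := fl_deriv hE d y
  have h3 : HasDerivAt (fun t : ℝ => e (Φ t y) - t • A (1, 0)) (dm E e y (R y) - A (1, 0)) 0 := by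
    have h4 : HasDerivAt (fun t : ℝ => t • A (1, 0)) ((1:ℝ) • A (1, 0)) 0 :=
      (hasDerivAt_id (0:ℝ)).smul_const _
    rw [one_smul] at h4
    exact h2.sub h4
  have h6 := h3.le_of_lip' hη.le (by
    filter_upwards [Metric.ball_mem_nhds (0:ℝ) hr] with t ht
    have ht' : |t| < r := by simpa [Real.dist_eq] using ht
    have h7 := key t ht' y hy
    simp only [d.zero, zero_smul, sub_zero, Real.norm_eq_abs]
    have e2 : e (Φ t y) - t • A (1, 0) - e y = e (Φ t y) - e y - t • A (1, 0) := by abel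
    rw [e2]
    exact h7)
  exact h6

theorem fl_F2 (hE : Emb E e) {R : M → E} {Φ : ℝ → M → M} (d : Q71.WN.FD R Φ) (η : ℝ) (hη : 0 < η)
    (x₀ : M) : ∃ W ∈ 𝓝 x₀, ∃ r > 0, ∀ t : ℝ, |t| < r → ∀ x ∈ W, ∀ y ∈ W,
      ‖e (Φ t y) - e y - t • dm E e x (R x)‖ ≤ η * |t| := by
  obtain ⟨a, ha⟩ := fl_vec hE d x₀
  obtain ⟨W, hW, r, hr, h1, h2⟩ := ha (η / 2) (half_pos hη)
  refine ⟨W, hW, r, hr, fun t ht x hx y hy => ?_⟩
  have h3 := h1 x hx
  have h4 := h2 t ht y hy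
  have e1 : e (Φ t y) - e y - t • dm E e x (R x) =
      (e (Φ t y) - e y - t • a) - t • (dm E e x (R x) - a) := by
    rw [smul_sub]; abel
  rw [e1]
  have h5 := norm_sub_le (e (Φ t y) - e y - t • a) (t • (dm E e x (R x) - a))
  have h6 : ‖t • (dm E e x (R x) - a)‖ ≤ |t| * (η / 2) := by
    rw [norm_smul, Real.norm_eq_abs]
    exact mul_le_mul_of_nonneg_left h3 (abs_nonneg _)
  linarith

end fl

/-- **job HR-FL** -/
theorem fl : S_FL.{u, v, w} := by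
  intro E _ _ _ M _ _ _ _ F _ _ e hE R Φ d
  obtain ⟨B, hB, hbd⟩ := exists_uniform_const (fun C (x : M) => ‖dm E e x (R x)‖ ≤ C)
    (fun C C' x h1 h2 => h2.trans h1) (by
      intro x₀
      obtain ⟨a, ha⟩ := fl_vec hE d x₀
      obtain ⟨W, hW, r, hr, h1, -⟩ := ha 1 one_pos
      refine ⟨‖a‖ + 1, ?_⟩
      filter_upwards [hW] with x hx
      have h2 := h1 x hx
      have h3 := norm_add_le a (dm E e x (R x) - a)
      rw [add_sub_cancel] at h3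
      linarith)
  refine ⟨B, hbd, fun η hη => ?_, fun η hη => ?_⟩
  · exact fl_glob (fun τ y y' => ‖(e (Φ τ y') - e (Φ τ y)) - (e y' - e y)‖ ≤ η * dist y y')
      (fl_F1 hE d η hη)
  · obtain ⟨r, hr, h⟩ := fl_glob (fun t x y => ‖e (Φ t y) - e y - t • dm E e x (R x)‖ ≤ η * |t|)
      (fl_F2 hE d η hη)
    exact ⟨r, hr, fun x y t h1 h2 => h t x y h2 h1⟩

end Q263.HR
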